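import Mathlib

/-!
# Variance balanced designs: the spectrum of `v` for all large `lam`

For every block size `k` and every `lam` above an explicit quadratic bound in `k`, a
`VB(v,k,lam)` design exists if and only if `k` is even or `lam * (v - 1)` is even.

Constructions.  (1) For `1 ≤ a < k` the blocks `i^a j^(k-a)`, one for every pair `i < j`, form a
`VB(v,k,a(k-a))` design.  (2) For odd `v`, the blocks `m^(k-2) a b`, one for every pair `a < b`
with midpoint `m = (a+b)/2` modulo `v`, form a `VB(v,k,2k-3)` design.
-/

set_option autoImplicit false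

namespace Pool.Agent.Results.MP_e0c419_co.LargeLambda

open Finset

/-! ### Definitions -/

/-- `IsVB k lam 𝓑`: the finite multiset `𝓑` of blocks is a variance balanced design with point
set `V`, block size `k` and all concurrences equal to `lam`.  A block is a multiset of `k` points,
and it must not be a single point repeated `k` times. -/
def IsVB {V : Type} [DecidableEq V] (k lam : ℕ) (𝓑 : Multiset (Multiset V)) : Prop :=
  (∀ B ∈ 𝓑, Multiset.card B = k ∧ ∀ i : V, B ≠ Multiset.replicate k i) ∧
    ∀ i j : V, i ≠ j → (𝓑.map (fun B => B.count i * B.count j)).sum = lam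

/-- A `VB(v,k,lam)` design exists. -/
def VBExists (v k lam : ℕ) : Prop :=
  ∃ 𝓑 : Multiset (Multiset (Fin v)), IsVB k lam 𝓑

/-- The additive semigroup (with zero) generated by the numbers `a (k - a)`, `1 ≤ a < k`. -/
def S (k : ℕ) : AddSubmonoid ℕ :=
  AddSubmonoid.closure {m | ∃ a, 1 ≤ a ∧ a < k ∧ m = a * (k - a)}

/-! ### Transport and sums -/

lemma transport {V W : Type} [DecidableEq V] [DecidableEq W] (e : V ≃ W) (k lam : ℕ)
    (𝓑 : Multiset (Multiset V)) (h : IsVB k lam 𝓑) :
    IsVB k lam (𝓑.map (fun B => B.map e)) := by
  constructor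
  · intro B hB
    obtain ⟨B', hB', rfl⟩ := Multiset.mem_map.mp hB
    obtain ⟨h1, h2⟩ := h.1 B' hB'
    refine ⟨by rw [Multiset.card_map]; exact h1, ?_⟩
    intro i hi
    apply h2 (e.symm i)
    have := congrArg (Multiset.map e.symm) hi
    rw [Multiset.map_map, Multiset.map_replicate] at this
    simpa using this
  · intro i j hij
    rw [Multiset.map_map]
    have hc : ∀ (B : Multiset V) (x : W), (B.map e).count x = B.count (e.symm x) := by
      intro B x
      have := Multiset.count_map_eq_count' e B e.injective (e.symm x)
      rwa [Equiv.apply_symm_apply] at this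
    have : ((fun B : Multiset W => B.count i * B.count j) ∘ fun B : Multiset V => B.map e)
        = fun B => B.count (e.symm i) * B.count (e.symm j) := by
      funext B
      simp only [Function.comp, hc]
    rw [this]
    exact h.2 _ _ (fun hh => hij (e.symm.injective hh))

lemma vb_zero (v k : ℕ) : VBExists v k 0 := by
  refine ⟨0, ?_, ?_⟩
  · intro B hB; simp at hB
  · intro i j _; simp

lemma vb_add {v k l1 l2 : ℕ} (h1 : VBExists v k l1) (h2 : VBExists v k l2) :
    VBExists v k (l1 + l2) := by
  obtain ⟨B1, hB1⟩ := h1
  obtain ⟨B2, hB2⟩ := h2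
  refine ⟨B1 + B2, ?_, ?_⟩
  · intro B hB
    rcases Multiset.mem_add.mp hB with h | h
    · exact hB1.1 B h
    · exact hB2.1 B h
  · intro i j hij
    rw [Multiset.map_add, Multiset.sum_add, hB1.2 i j hij, hB2.2 i j hij]

/-! ### First construction -/

lemma vb_pair (v k a : ℕ) (ha : 1 ≤ a) (hak : a < k) : VBExists v k (a * (k - a)) := by
  refine ⟨((univ : Finset (Fin v × Fin v)).filter (fun p => p.1 < p.2)).val.map
    (fun p => Multiset.replicate a p.1 + Multiset.replicate (k - a) p.2), ?_, ?_⟩
  · intro B hB
    obtain ⟨p, hp, rfl⟩ := Multiset.mem_map.mp hB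
    have hp' : p.1 < p.2 := (mem_filter.mp (mem_val.mp hp)).2
    refine ⟨?_, ?_⟩
    · rw [Multiset.card_add, Multiset.card_replicate, Multiset.card_replicate]; omega
    · intro i hi
      have h1 := congrArg (Multiset.count p.1) hi
      have h2 := congrArg (Multiset.count p.2) hi
      rw [Multiset.count_add, Multiset.count_replicate, Multiset.count_replicate,
        Multiset.count_replicate] at h1 h2
      have hne : p.1 ≠ p.2 := ne_of_lt hp'
      by_cases h3 : i = p.1
      · subst h3
        simp [hne] at h2
        omega
      · simp [hne.symm, h3] at h1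
        omega
  · intro x y hxy
    rw [Multiset.map_map]
    change ∑ p ∈ (univ : Finset (Fin v × Fin v)).filter (fun p => p.1 < p.2),
      (Multiset.replicate a p.1 + Multiset.replicate (k - a) p.2).count x
        * (Multiset.replicate a p.1 + Multiset.replicate (k - a) p.2).count y = _
    simp only [Multiset.count_add, Multiset.count_replicate]
    rcases lt_or_gt_of_ne hxy with h | h
    · rw [sum_eq_single (x, y)]
      · simp [hxy, hxy.symm]
      · rintro ⟨p, q⟩ hp hne
        have hp' : p < q := (mem_filter.mp hp).2
        by_contra hcon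
        rw [mul_eq_zero, not_or] at hcon
        obtain ⟨h1, h2⟩ := hcon
        apply hne
        by_cases hpx : p = x
        · subst hpx
          by_cases hqy : q = y
          · rw [hqy]
          · simp [hxy, hqy] at h2
        · by_cases hqx : q = x
          · subst hqx
            by_cases hpy : p = y
            · subst hpy; exact absurd hp' (not_lt_of_gt h)
            · simp [hxy, hpy] at h2
          · simp [hpx, hqx] at h1
      · intro hcon
        exact absurd (mem_filter.mpr (⟨mem_univ (x, y), h⟩ : (x, y) ∈ univ ∧ (x, y).1 < (x, y).2))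
          hcon
    · rw [sum_eq_single (y, x)]
      · simp [hxy, hxy.symm]; ring
      · rintro ⟨p, q⟩ hp hne
        have hp' : p < q := (mem_filter.mp hp).2
        by_contra hcon
        rw [mul_eq_zero, not_or] at hcon
        obtain ⟨h1, h2⟩ := hcon
        apply hne
        by_cases hpy : p = y
        · subst hpy
          by_cases hqx : q = x
          · rw [hqx]
          · simp [hxy.symm, hqx] at h1
        · by_cases hqy : q = y
          · subst hqy
            by_cases hpx : p = x
            · subst hpx; exact absurd hp' (not_lt_of_gt h)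
            · simp [hxy.symm, hpx] at h1
          · simp [hpy, hqy] at h2
      · intro hcon
        exact absurd (mem_filter.mpr (⟨mem_univ (y, x), h⟩ : (y, x) ∈ univ ∧ (y, x).1 < (y, x).2))
          hcon

lemma vb_S {v k lam : ℕ} (h : lam ∈ S k) : VBExists v k lam := by
  unfold S at h
  induction h using AddSubmonoid.closure_induction with
  | mem x hx =>
    obtain ⟨a, h1, h2, rfl⟩ := hx
    exact vb_pair v k a h1 h2
  | zero => exact vb_zero v k
  | add x y _ _ hx hy => exact vb_add hx hy

/-! ### Second construction -/

lemma sum_unique {α : Type} [Fintype α] [DecidableEq α] (P : α → Prop) [DecidablePred P] (a : α)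
    (h : ∀ x, P x ↔ x = a) : ∑ x, (if P x then 1 else 0) = 1 := by
  rw [sum_boole]
  have : (univ : Finset α).filter P = {a} := by
    ext x; simp [h]
  rw [this]; rfl

lemma vb_odd (v k : ℕ) (hv : Odd v) (hk : 3 ≤ k) : VBExists v k (2 * k - 3) := by
  obtain ⟨t, ht⟩ := hv
  have : NeZero v := ⟨by omega⟩
  -- half
  obtain ⟨hf, hhf⟩ : ∃ hf : ZMod v, 2 * hf = 1 := by
    refine ⟨((t + 1 : ℕ) : ZMod v), ?_⟩
    have h1 : ((2 * (t + 1) : ℕ) : ZMod v) = ((v + 1 : ℕ) : ZMod v) := by
      congr 1; omega
    push_cast at h1
    rw [ZMod.natCast_self, zero_add] at h1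
    push_cast
    exact h1
  let mid : ZMod v × ZMod v → ZMod v := fun p => (p.1 + p.2) * hf
  let blk : ZMod v × ZMod v → Multiset (ZMod v) := fun p =>
    Multiset.replicate (k - 2) (mid p) + {p.1} + {p.2}
  have hmid1 : ∀ p, mid p = p.1 → p.2 = p.1 := by
    intro p hp
    have h1 : 2 * mid p = 2 * p.1 := by rw [hp]
    have h2 : 2 * mid p = p.1 + p.2 := by
      simp only [mid]; linear_combination (p.1 + p.2) * hhf
    rw [h2] at h1
    linear_combination h1
  have hmid2 : ∀ p, mid p = p.2 → p.2 = p.1 := by
    intro p hp
    have h1 : 2 * mid p = 2 * p.2 := by rw [hp]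
    have h2 : 2 * mid p = p.1 + p.2 := by
      simp only [mid]; linear_combination (p.1 + p.2) * hhf
    rw [h2] at h1
    linear_combination -h1
  have hcount : ∀ p x, (blk p).count x = (k - 2) * (if mid p = x then 1 else 0)
      + (if p.1 = x then 1 else 0) + (if p.2 = x then 1 else 0) := by
    intro p x
    simp only [blk, Multiset.count_add, Multiset.count_replicate, Multiset.count_singleton]
    congr 1
    · congr 1
      · split_ifs <;> simp
      · simp only [eq_comm]
    · simp only [eq_comm]
  let e : ZMod v ≃ Fin v := (ZMod.finEquiv v).symm.toEquiv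
  refine ⟨_, transport e k (2 * k - 3)
    (((univ : Finset (ZMod v × ZMod v)).filter (fun p => p.1.val < p.2.val)).val.map blk) ?_⟩
  constructor
  · intro B hB
    obtain ⟨p, hp, rfl⟩ := Multiset.mem_map.mp hB
    have hp' : p.1.val < p.2.val := (mem_filter.mp (mem_val.mp hp)).2
    refine ⟨?_, ?_⟩
    · simp only [blk, Multiset.card_add, Multiset.card_replicate, Multiset.card_singleton]; omega
    · intro i hi
      have h1 : p.1 ∈ blk p := by simp [blk]
      have h2 : p.2 ∈ blk p := by simp [blk]
      rw [hi] at h1 h2
      have h3 := Multiset.eq_of_mem_replicate h1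
      have h4 := Multiset.eq_of_mem_replicate h2
      rw [h3, h4] at hp'
      exact lt_irrefl _ hp'
  · intro x y hxy
    rw [Multiset.map_map]
    let f : ZMod v × ZMod v → ℕ := fun p => (blk p).count x * (blk p).count y
    change ∑ p ∈ (univ : Finset (ZMod v × ZMod v)).filter (fun p => p.1.val < p.2.val), f p = _
    have hf1 : ∀ p, f p = (k - 2) * ((if mid p = x ∧ p.1 = y then 1 else 0)
        + (if mid p = x ∧ p.2 = y then 1 else 0) + (if mid p = y ∧ p.1 = x then 1 else 0)
        + (if mid p = y ∧ p.2 = x then 1 else 0))
        + (if p.1 = x ∧ p.2 = y then 1 else 0) + (if p.1 = y ∧ p.2 = x then 1 else 0) := by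
      intro p
      simp only [f, hcount]
      by_cases a1 : mid p = x
      · have a2 : mid p ≠ y := by rw [a1]; exact hxy
        by_cases a3 : p.1 = x
        · have a4 := hmid1 p (a1.trans a3.symm)
          have a5 : p.2 = x := a4.trans a3
          have a6 : p.1 ≠ y := by rw [a3]; exact hxy
          have a7 : p.2 ≠ y := by rw [a5]; exact hxy
          simp [a2, a6, a7]
        · have a5 : p.2 ≠ x := by
            intro hcon
            have := hmid2 p (a1.trans hcon.symm)
            exact a3 (this.symm.trans hcon)
          simp only [a1, hxy, a3, a5, if_true, if_false, true_and, false_and, and_false]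
          ring
      · by_cases a2 : mid p = y
        · by_cases a3 : p.1 = y
          · have a4 := hmid1 p (a2.trans a3.symm)
            have a5 : p.2 = y := a4.trans a3
            have a6 : p.1 ≠ x := by rw [a3]; exact hxy.symm
            have a7 : p.2 ≠ x := by rw [a5]; exact hxy.symm
            simp [a1, a6, a7]
          · have a5 : p.2 ≠ y := by
              intro hcon
              have := hmid2 p (a2.trans hcon.symm)
              exact a3 (this.symm.trans hcon)
            simp only [hxy.symm, a2, a3, a5, if_true, if_false, true_and, false_and, and_false]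
            ring
        · simp only [a1, a2, if_false, false_and]
          by_cases b1 : p.1 = x
          · have b2 : p.1 ≠ y := by rw [b1]; exact hxy
            by_cases b3 : p.2 = x
            · have b4 : p.2 ≠ y := by rw [b3]; exact hxy
              simp [b2, b4]
            · simp only [b1, b3, if_true, if_false]
              simp [hxy]
          · by_cases b3 : p.2 = x
            · have b4 : p.2 ≠ y := by rw [b3]; exact hxy
              simp [b1, b3, hxy]
            · simp [b1, b3]
    have htot : ∑ p, f p = 2 * (2 * k - 3) := by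
      simp only [hf1, sum_add_distrib, ← mul_sum]
      have two_mid : ∀ p, 2 * mid p = p.1 + p.2 := by
        intro p; simp only [mid]; linear_combination (p.1 + p.2) * hhf
      have key1 : ∀ x y : ZMod v, ∑ p, (if mid p = x ∧ p.1 = y then 1 else 0) = 1 := by
        intro x y
        apply sum_unique _ (y, 2 * x - y)
        intro p
        constructor
        · rintro ⟨h1, h2⟩
          have := two_mid p
          rw [h1, h2] at this
          exact Prod.ext h2 (by simp only; linear_combination -this)
        · rintro rfl
          refine ⟨?_, rfl⟩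
          simp only [mid]
          linear_combination x * hhf
      have key2 : ∀ x y : ZMod v, ∑ p, (if mid p = x ∧ p.2 = y then 1 else 0) = 1 := by
        intro x y
        apply sum_unique _ (2 * x - y, y)
        intro p
        constructor
        · rintro ⟨h1, h2⟩
          have := two_mid p
          rw [h1, h2] at this
          exact Prod.ext (by simp only; linear_combination -this) h2
        · rintro rfl
          refine ⟨?_, rfl⟩
          simp only [mid]
          linear_combination x * hhf
      have key3 : ∀ x y : ZMod v, ∑ p : ZMod v × ZMod v, (if p.1 = x ∧ p.2 = y then 1 else 0) = 1 := by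
        intro x y
        apply sum_unique _ (x, y)
        intro p
        constructor
        · rintro ⟨h1, h2⟩; exact Prod.ext h1 h2
        · rintro rfl; exact ⟨rfl, rfl⟩
      rw [key1, key2, key1, key2, key3, key3]
      omega
    have hsym : ∀ p : ZMod v × ZMod v, f p.swap = f p := by
      intro p
      simp only [f, hcount, Prod.fst_swap, Prod.snd_swap]
      have : mid p.swap = mid p := by simp only [mid, Prod.fst_swap, Prod.snd_swap]; ring
      rw [this]; ring
    have hdiag : ∀ p : ZMod v × ZMod v, p.1 = p.2 → f p = 0 := by
      intro p hp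
      have hm : mid p = p.1 := by
        simp only [mid, ← hp]; linear_combination p.1 * hhf
      simp only [f, hcount, hm, ← hp]
      by_cases h1 : p.1 = x
      · have h2 : p.1 ≠ y := by rw [h1]; exact hxy
        simp [h2]
      · simp [h1]
    have hsplit : ∑ p, f p
        = ∑ p ∈ (univ : Finset (ZMod v × ZMod v)).filter (fun p => p.1.val < p.2.val), f p
        + ∑ p ∈ (univ : Finset (ZMod v × ZMod v)).filter (fun p => p.1.val < p.2.val), f p := by
      rw [← sum_filter_add_sum_filter_not univ (fun p : ZMod v × ZMod v => p.1.val < p.2.val) f]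
      congr 1
      rw [← sum_filter_add_sum_filter_not
        ((univ : Finset (ZMod v × ZMod v)).filter (fun p => ¬ p.1.val < p.2.val))
        (fun p => p.2.val < p.1.val) f]
      have h2 : ∑ p ∈ ((univ : Finset (ZMod v × ZMod v)).filter
          (fun p => ¬ p.1.val < p.2.val)).filter (fun p => ¬ p.2.val < p.1.val), f p = 0 := by
        apply sum_eq_zero
        intro p hp
        simp only [mem_filter, mem_univ, true_and, not_lt] at hp
        apply hdiag
        exact ZMod.val_injective v (le_antisymm hp.2 hp.1)
      rw [h2, add_zero]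
      apply sum_bij (fun p _ => Prod.swap p)
      · intro p hp
        simp only [mem_filter, mem_univ, true_and, Prod.fst_swap, Prod.snd_swap] at hp ⊢
        exact hp.2
      · intro p _ q _ h; exact Prod.swap_injective h
      · intro p hp
        refine ⟨p.swap, ?_, Prod.swap_swap p⟩
        simp only [mem_filter, mem_univ, true_and, Prod.fst_swap, Prod.snd_swap] at hp ⊢
        exact ⟨by omega, hp⟩
      · intro p _; rw [hsym]
    omega

/-! ### Necessary condition -/

lemma vb_even_of_odd {v k lam : ℕ} (hv : 1 ≤ v) (hk : Odd k) (h : VBExists v k lam) :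
    Even (lam * (v - 1)) := by
  obtain ⟨𝓑, hB, hC⟩ := h
  let i : Fin v := ⟨0, by omega⟩
  have h1 : ∑ j ∈ univ.erase i, (𝓑.map (fun B => B.count i * B.count j)).sum = lam * (v - 1) := by
    rw [sum_congr rfl (fun j hj => hC i j (ne_of_mem_erase hj).symm), sum_const,
      card_erase_of_mem (mem_univ i), card_univ, Fintype.card_fin, smul_eq_mul]
    ring
  have h2 : ∑ j ∈ univ.erase i, (𝓑.map (fun B => B.count i * B.count j)).sum
      = (𝓑.map (fun B => B.count i * (k - B.count i))).sum := by
    have e1 : ∀ s : Finset (Fin v), ∑ j ∈ s, (𝓑.map (fun B => B.count i * B.count j)).sum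
        = (𝓑.map (fun B => ∑ j ∈ s, B.count i * B.count j)).sum := by
      intro s
      induction s using Finset.induction_on with
      | empty => simp
      | insert a s ha ih =>
        rw [sum_insert ha, ih, ← Multiset.sum_map_add]
        congr 1
        apply Multiset.map_congr rfl
        intro B _
        rw [sum_insert ha]
    rw [e1]
    congr 1
    apply Multiset.map_congr rfl
    intro B hBm
    rw [← mul_sum]
    congr 1
    have h3 : ∑ j, B.count j = k := by
      rw [← (hB B hBm).1]
      exact Multiset.sum_count_eq_card (fun a _ => mem_univ a)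
    rw [← add_sum_erase univ (fun j => B.count j) (mem_univ i)] at h3
    omega
  rw [← h1, h2]
  have h4 : ∀ n, n ≤ k → Even (n * (k - n)) := by
    intro n hn
    rcases Nat.even_or_odd n with h | h
    · exact h.mul_right _
    · have : Even (k - n) := by
        rw [Nat.even_sub hn]
        constructor
        · intro he; exact absurd hk (Nat.not_odd_iff_even.mpr he)
        · intro he; exact absurd h (Nat.not_odd_iff_even.mpr he)
      exact this.mul_left _
  have h5 : ∀ M : Multiset (Multiset (Fin v)), (∀ B ∈ M, Multiset.card B = k) →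
      Even ((M.map (fun B => B.count i * (k - B.count i))).sum) := by
    intro M
    induction M using Multiset.induction_on with
    | empty => intro _; simp
    | cons B M ih =>
      intro hM
      rw [Multiset.map_cons, Multiset.sum_cons]
      apply Even.add
      · apply h4
        rw [← hM B (Multiset.mem_cons_self B M)]
        exact Multiset.count_le_card i B
      · exact ih (fun B' hB' => hM B' (Multiset.mem_cons_of_mem hB'))
  exact h5 𝓑 (fun B hBm => (hB B hBm).1)

/-! ### Two points -/

lemma vb_two {k lam : ℕ} (h : VBExists 2 k lam) : lam ∈ S k := by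
  obtain ⟨𝓑, hB, hC⟩ := h
  have h1 := hC 0 1 (by decide)
  rw [← h1]
  have h5 : ∀ M : Multiset (Multiset (Fin 2)), (∀ B ∈ M, Multiset.card B = k ∧
      ∀ i : Fin 2, B ≠ Multiset.replicate k i) →
      (M.map (fun B => B.count 0 * B.count 1)).sum ∈ S k := by
    intro M
    induction M using Multiset.induction_on with
    | empty => intro _; simp
    | cons B M ih =>
      intro hM
      rw [Multiset.map_cons, Multiset.sum_cons]
      apply AddSubmonoid.add_mem
      · obtain ⟨h2, h3⟩ := hM B (Multiset.mem_cons_self B M)
        have h4 : B.count 0 + B.count 1 = k := by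
          rw [← h2]
          have := Multiset.sum_count_eq_card (s := (univ : Finset (Fin 2))) (m := B)
            (fun a _ => mem_univ a)
          rw [Fin.sum_univ_two] at this
          exact this
        have h5 : B.count 0 ≠ k := by
          intro hcon
          rw [← h2] at hcon
          apply h3 0
          rw [Multiset.count_eq_card] at hcon
          rw [Multiset.eq_replicate]
          exact ⟨h2, fun b hb => (hcon b hb).symm⟩
        have h6 : B.count 1 ≠ k := by
          intro hcon
          rw [← h2] at hcon
          apply h3 1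
          rw [Multiset.count_eq_card] at hcon
          rw [Multiset.eq_replicate]
          exact ⟨h2, fun b hb => (hcon b hb).symm⟩
        apply AddSubmonoid.subset_closure
        refine ⟨B.count 0, by omega, by omega, ?_⟩
        have : k - B.count 0 = B.count 1 := by omega
        rw [this]
      · exact ih (fun B' hB' => hM B' (Multiset.mem_cons_of_mem hB'))
  exact h5 𝓑 hB

/-! ### Numerical semigroups -/

lemma mem_S_even (k lam : ℕ) (hk : 2 ≤ k) (he : Even k) (hl : (k - 2) * (2 * k - 5) ≤ lam) :
    lam ∈ S k := by
  obtain ⟨t, ht⟩ := he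
  rcases Nat.lt_or_ge t 2 with h | h
  · have hk2 : k = 2 := by omega
    subst hk2
    have h1 : (1 : ℕ) ∈ S 2 := AddSubmonoid.subset_closure ⟨1, le_refl _, by norm_num, by norm_num⟩
    have := AddSubmonoid.nsmul_mem (S 2) h1 lam
    simpa using this
  · have hcop : Nat.Coprime (k - 1) (2 * (k - 2)) := by
      have h1 : Nat.Coprime (k - 1) (k - 2) := by
        have : k - 1 = (k - 2) + 1 := by omega
        rw [this]
        simp
      have h2 : Nat.Coprime (k - 1) 2 := by
        rw [Nat.coprime_two_right]
        exact ⟨t - 1, by omega⟩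
      exact Nat.Coprime.mul_right h2 h1
    have hF := frobeniusNumber_pair hcop (by omega) (by omega)
    have hmem : lam ∈ AddSubmonoid.closure ({k - 1, 2 * (k - 2)} : Set ℕ) := by
      apply (frobeniusNumber_iff.mp hF).2
      obtain ⟨w, rfl⟩ : ∃ w, k = w + 4 := ⟨k - 4, by omega⟩
      have e1 : w + 4 - 1 = w + 3 := by omega
      have e2 : w + 4 - 2 = w + 2 := by omega
      have e3 : 2 * (w + 4) - 5 = 2 * w + 3 := by omega
      rw [e1, e2]
      rw [e2, e3] at hl
      have e4 : (w + 3) * (2 * (w + 2)) = (w + 2) * (2 * w + 3) + (3 * w + 6) := by ring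
      rw [e4]
      have hX : 0 < (w + 2) * (2 * w + 3) := by positivity
      generalize (w + 2) * (2 * w + 3) = X at *
      omega
    refine (AddSubmonoid.closure_mono ?_) hmem
    intro x hx
    rcases hx with rfl | rfl
    · exact ⟨1, le_refl _, by omega, by rw [one_mul]⟩
    · exact ⟨2, by omega, by omega, rfl⟩

lemma mem_S_odd (k lam : ℕ) (hk : 2 ≤ k) (ho : Odd k) (he : Even lam)
    (hl : (k - 3) ^ 2 ≤ lam) : lam ∈ S k := by
  obtain ⟨t, ht⟩ := ho
  obtain ⟨n, hn⟩ := he
  rcases Nat.lt_or_ge t 2 with h | h
  · have hk3 : k = 3 := by omega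
    subst hk3
    have h1 : (2 : ℕ) ∈ S 3 := AddSubmonoid.subset_closure ⟨1, le_refl _, by norm_num, by norm_num⟩
    have := AddSubmonoid.nsmul_mem (S 3) h1 n
    rw [smul_eq_mul] at this
    have e : lam = n * 2 := by omega
    rw [e]; exact this
  · have hcop : Nat.Coprime t (2 * t - 1) := by
      have h1 : Nat.Coprime (2 * t - 1) t := by
        have h2 : Nat.gcd (2 * t - 1) t ∣ 1 := by
          have a1 : Nat.gcd (2 * t - 1) t ∣ 2 * t - 1 := Nat.gcd_dvd_left _ _
          have a2 : Nat.gcd (2 * t - 1) t ∣ 2 * t :=
            dvd_mul_of_dvd_right (Nat.gcd_dvd_right _ _) 2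
          have a3 := Nat.dvd_sub a2 a1
          have a4 : 2 * t - (2 * t - 1) = 1 := by omega
          rwa [a4] at a3
        exact Nat.dvd_one.mp h2
      exact h1.symm
    have hF := frobeniusNumber_pair hcop (by omega) (by omega)
    have hmem : n ∈ AddSubmonoid.closure ({t, 2 * t - 1} : Set ℕ) := by
      apply (frobeniusNumber_iff.mp hF).2
      obtain ⟨w, rfl⟩ : ∃ w, t = w + 2 := ⟨t - 2, by omega⟩
      have e1 : 2 * (w + 2) - 1 = 2 * w + 3 := by omega
      rw [e1]
      have e2 : k - 3 = 2 * w + 2 := by omega
      rw [e2] at hl
      have e3 : (2 * w + 2) ^ 2 = 2 * (2 * (w + 1) ^ 2) := by ring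
      have e4 : (w + 2) * (2 * w + 3) = 2 * (w + 1) ^ 2 + (3 * w + 4) := by ring
      rw [e3] at hl
      rw [e4]
      have hX : 0 < (w + 1) ^ 2 := by positivity
      generalize (w + 1) ^ 2 = X at *
      omega
    have hmap : ∀ x ∈ AddSubmonoid.closure ({t, 2 * t - 1} : Set ℕ), 2 * x ∈ S k := by
      intro x hx
      induction hx using AddSubmonoid.closure_induction with
      | mem x hx =>
        apply AddSubmonoid.subset_closure
        rcases hx with rfl | rfl
        · exact ⟨1, le_refl _, by omega, by omega⟩
        · refine ⟨2, by omega, by omega, ?_⟩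
          have : k - 2 = 2 * t - 1 := by omega
          rw [this]
      | zero => simp
      | add x y _ _ hx hy => rw [mul_add]; exact AddSubmonoid.add_mem _ hx hy
    have e : lam = 2 * n := by omega
    rw [e]; exact hmap n hmem

/-- The pairs `(k, lam)` for which the spectrum is determined: `lam ∈ S k`, or `k` is odd and
`lam ∈ (2k-3) + S k`. -/
def Covered (k lam : ℕ) : Prop :=
  lam ∈ S k ∨ (Odd k ∧ ∃ s ∈ S k, lam = 2 * k - 3 + s)

lemma covered_spectrum {v k lam : ℕ} (hv : 2 ≤ v) (hk : 2 ≤ k) (hc : Covered k lam) :
    VBExists v k lam ↔ (Even k ∨ Even (lam * (v - 1))) := by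
  constructor
  · intro h
    rcases Nat.even_or_odd k with he | ho
    · left; exact he
    · right; exact vb_even_of_odd (by omega) ho h
  · intro h
    rcases hc with hc | ⟨ho, s, hs, rfl⟩
    · exact vb_S hc
    · have hk3 : 3 ≤ k := by
        obtain ⟨w, hw⟩ := ho
        omega
      have hev : Even ((2 * k - 3 + s) * (v - 1)) := by
        rcases h with h | h
        · exact absurd ho (Nat.not_odd_iff_even.mpr h)
        · exact h
      -- elements of S k are even for odd k
      have hse : Even s := by
        have h2 := vb_even_of_odd (v := 2) (by norm_num) ho (vb_S hs)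
        simpa using h2
      have hv1 : Even (v - 1) := by
        rcases Nat.even_mul.mp hev with h1 | h1
        · exfalso
          obtain ⟨w, hw⟩ := h1
          obtain ⟨u, hu⟩ := hse
          omega
        · exact h1
      have hvo : Odd v := by
        obtain ⟨w, hw⟩ := hv1
        exact ⟨w, by omega⟩
      exact vb_add (vb_odd v k hvo hk3) (vb_S hs)

/-- **Main theorem.**  Let `k ≥ 2` and `lam ≥ 1`.
(a) If `lam ∈ S k`, or `k` is odd and `lam ∈ (2k-3) + S k`, then for all `v ≥ 2` a `VB(v,k,lam)`
design exists if and only if `k` is even or `lam (v-1)` is even.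
(b) This covers all `lam` from an explicit quadratic bound on: `lam ≥ (k-2)(2k-5)` if `k` is even,
`lam ≥ (k-3)^2 + 2k - 3` if `k` is odd; so for every `k` the spectrum is determined for all but
finitely many `lam`.
(c) On two points a design exists exactly for `lam ∈ S k`. -/
theorem result (k lam : ℕ) (hk : 2 ≤ k) (_ : 1 ≤ lam) :
    (Covered k lam → ∀ v, 2 ≤ v → (VBExists v k lam ↔ (Even k ∨ Even (lam * (v - 1))))) ∧
    (((Even k ∧ (k - 2) * (2 * k - 5) ≤ lam) ∨ (Odd k ∧ (k - 3) ^ 2 + (2 * k - 3) ≤ lam)) →
      Covered k lam) ∧
    (VBExists 2 k lam ↔ lam ∈ S k) := by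
  refine ⟨fun hc v hv => covered_spectrum hv hk hc, ?_, ⟨vb_two, vb_S⟩⟩
  rintro (⟨he, hl⟩ | ⟨ho, hl⟩)
  · exact Or.inl (mem_S_even k lam hk he hl)
  · rcases Nat.even_or_odd lam with hle | hlo
    · exact Or.inl (mem_S_odd k lam hk ho hle (by omega))
    · right
      have hrest : Even (lam - (2 * k - 3)) := by
        obtain ⟨w, hw⟩ := hlo
        exact ⟨w - (k - 2), by omega⟩
      exact ⟨ho, lam - (2 * k - 3), mem_S_odd k _ hk ho hrest (by omega), by omega⟩

end Pool.Agent.Results.MP_e0c419_co.LargeLambda
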